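import Mathlib
import Pool.Agent.N909.TF.Lim

set_option autoImplicit false

/-!
# `2k + 1` and `p_{kn}² - 2` prime with `1 ≤ k ≤ n`, in all sequential random models

The question is whether for every `n ≥ 1` there is `1 ≤ k ≤ n` such that `2k + 1` and `p_{kn}² - 2` are
both prime.  We prove that in EVERY sequential random model of the primes (the integers are decided one
after the other, the conditional probability of choosing `n + 1` given the past is asymptotic to
`1 / log n`; no independence, no rate) the number of such `k` is asymptotic to `n / (4 log² n)`.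
-/

open MeasureTheory Filter
open scoped Topology

namespace Pool.Agent.Results.MP_c971ef_nt.SequentialModels

/-- the element number `k` of `S` in increasing order (the least one has number `1`) -/
noncomputable def p (S : Set ℕ) (k : ℕ) : ℕ := Nat.nth (· ∈ S) (k - 1)

/-- `x² - 2` belongs to `S` -/
def sqm (S : Set ℕ) (x : ℕ) : Prop := ∃ a ∈ S, a + 2 = x ^ 2

/-- the `k` with `1 ≤ k ≤ n` as in the question, with the elements of `S` in the role of the primes -/
def good (S : Set ℕ) (n : ℕ) : Set ℕ :=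
  {k | 1 ≤ k ∧ k ≤ n ∧ 2 * k + 1 ∈ S ∧ sqm S (p S (k * n))}

open Pool.Agent.N909.TF

lemma p_eq (S : Set ℕ) (k : ℕ) : p S k = pk S k := rfl

lemma sqm_iff {S : Set ℕ} {x : ℕ} (hx : 2 ≤ x) : sqm S x ↔ x ^ 2 - 2 ∈ S := by
  have h1 : 4 ≤ x ^ 2 := by nlinarith
  constructor
  · rintro ⟨a, ha, h⟩
    rwa [show x ^ 2 - 2 = a by omega]
  · intro h
    exact ⟨x ^ 2 - 2, h, by omega⟩

/-- the time -/
def X (n : ℕ) : ℕ := n ^ 2 * Nat.sqrt n

/-- the tuple (of one element) -/
noncomputable def tup (s : Finset ℕ) (n k : ℕ) : Finset ℕ := {pk (s : Set ℕ) (k * n) ^ 2 - 2}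

/-- the random family -/
noncomputable def Phi (n : ℕ) (s : Finset ℕ) : Finset (ℕ × Finset ℕ) :=
  (((Finset.Ioc 0 n).filter (fun k => 2 * k + 1 ∈ s)).image (fun k => (k, tup s n k))).filter
    (fun j => (∀ t ∈ j.2, X n < t) ∧ ∀ t ∈ j.2, t ≤ X n ^ 2)

lemma mem_Phi {n : ℕ} {s : Finset ℕ} {j : ℕ × Finset ℕ} : j ∈ Phi n s ↔
    (0 < j.1 ∧ j.1 ≤ n ∧ 2 * j.1 + 1 ∈ s ∧ j.2 = tup s n j.1) ∧
    (∀ t ∈ j.2, X n < t) ∧ ∀ t ∈ j.2, t ≤ X n ^ 2 := by
  unfold Phi
  rw [Finset.mem_filter, Finset.mem_image]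
  constructor
  · rintro ⟨⟨k, hk, rfl⟩, h⟩
    rw [Finset.mem_filter, Finset.mem_Ioc] at hk
    exact ⟨⟨hk.1.1, hk.1.2, hk.2, rfl⟩, h⟩
  · rintro ⟨⟨h1, h2, h3, h4⟩, h⟩
    refine ⟨⟨j.1, Finset.mem_filter.2 ⟨Finset.mem_Ioc.2 ⟨h1, h2⟩, h3⟩, ?_⟩, h⟩
    rw [← h4]

lemma Phi_one {n : ℕ} {s : Finset ℕ} {j : ℕ × Finset ℕ} (hj : j ∈ Phi n s) : j.2.card = 1 := by
  rw [(mem_Phi.1 hj).1.2.2.2]
  exact Finset.card_singleton _

lemma sq_inj {a b t : ℕ} (ht : 0 < t) (ha : t = a ^ 2 - 2) (hb : t = b ^ 2 - 2) : a = b := by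
  have : a ^ 2 = b ^ 2 := by omega
  exact Nat.pow_left_injective two_ne_zero this

/-- the multiplicity -/
lemma Phi_mult (n : ℕ) (s : Finset ℕ) (t : ℕ) : ((Phi n s).filter (fun j => t ∈ j.2)).card ≤ 1 := by
  classical
  refine Finset.card_le_one.2 fun a ha b hb => ?_
  rw [Finset.mem_filter] at ha hb
  obtain ⟨⟨a1, a2, a3, a4⟩, a5, a6⟩ := mem_Phi.1 ha.1
  obtain ⟨⟨b1, b2, b3, b4⟩, b5, b6⟩ := mem_Phi.1 hb.1
  have ht : 0 < t := lt_of_le_of_lt (Nat.zero_le _) (a5 t ha.2)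
  have h1 := ha.2
  have h2 := hb.2
  rw [a4] at h1
  rw [b4] at h2
  unfold tup at h1 h2
  rw [Finset.mem_singleton] at h1 h2
  have h3 := sq_inj ht h1 h2
  have hn : 0 < n := by omega
  have h4 : 0 < pk (s : Set ℕ) (a.1 * n) := by
    rcases Nat.eq_zero_or_pos (pk (s : Set ℕ) (a.1 * n)) with h | h
    · rw [h] at h1
      simp at h1
      omega
    · exact h
  have h5 := pk_fin_inj s (Nat.mul_pos a1 hn) (Nat.mul_pos b1 hn) h4 h3
  have h6 : a.1 = b.1 := Nat.eq_of_mul_eq_mul_right hn h5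
  refine Prod.ext h6 ?_
  rw [a4, b4, h6]

/-- growth of the elements, at the scale `n`: for `n ^ e ≤ k ≤ n` -/
lemma scale {S : Set ℕ} (hS : PNT S) (e ε : ℝ) (he : 0 < e) (hε : 0 < ε) :
    ∀ᶠ n : ℕ in atTop, ∀ k : ℕ, (n : ℝ) ^ e ≤ k → (pk S k : ℝ) ≤ (k : ℝ) ^ (1 + ε) ∧ k < pk S k := by
  refine ev_ge ?_ e he
  filter_upwards [pk_up hS ε hε, pk_gt hS 1] with k g1 g2
  exact ⟨g1, by simpa using g2⟩

/-- for most `k` everything is as it should be; `d` measures the distance from the ends -/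
lemma typical {S : Set ℕ} (hS : PNT S) (d : ℝ) (hd : 0 < d) (hd1 : d ≤ 1 / 5) :
    ∀ᶠ n : ℕ in atTop, ∀ k : ℕ, (n : ℝ) ^ (1 - d) ≤ k → k ≤ n →
      (pk S (k * n) : ℝ) ≤ (n : ℝ) ^ (2 * (1 + d)) ∧
      (n : ℝ) ^ (2 * (2 - d)) ≤ ((pk S (k * n) ^ 2 - 2 : ℕ) : ℝ) ∧ 2 ≤ pk S (k * n) := by
  filter_upwards [scale hS (2 - d) d (by linarith) hd, eventually_ge_atTop 4,
    pow_beat 0 (2 - d) 4 (by linarith) (by linarith)] with n g1 g2 g3 k hk hkn
  have hn : (4 : ℝ) ≤ n := by exact_mod_cast g2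
  have hn0 : (0 : ℝ) < n := by linarith
  have hn1 : (1 : ℝ) ≤ n := by linarith
  have hkn' : (k : ℝ) ≤ n := by exact_mod_cast hkn
  have hk0 : (0 : ℝ) ≤ k := Nat.cast_nonneg k
  have e0 : (n : ℝ) ^ (2 - d) = (n : ℝ) ^ (1 - d) * n := by
    nth_rewrite 3 [← Real.rpow_one (n : ℝ)]
    rw [← Real.rpow_add hn0]
    congr 1
    ring
  have hlow : (n : ℝ) ^ (2 - d) ≤ ((k * n : ℕ) : ℝ) := by
    rw [e0]
    push_cast
    exact mul_le_mul_of_nonneg_right hk hn0.le
  obtain ⟨h1, h2⟩ := g1 (k * n) hlow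
  have h2' : ((k * n : ℕ) : ℝ) + 1 ≤ pk S (k * n) := by exact_mod_cast h2
  have hup : ((k * n : ℕ) : ℝ) ≤ (n : ℝ) ^ (2 : ℝ) := by
    push_cast
    have : (n : ℝ) ^ (2 : ℝ) = n * n := by
      rw [show (2 : ℝ) = ((2 : ℕ) : ℝ) by norm_num, Real.rpow_natCast]
      ring
    rw [this]
    exact mul_le_mul_of_nonneg_right hkn' hn0.le
  have h3 : (pk S (k * n) : ℝ) ≤ (n : ℝ) ^ (2 * (1 + d)) := by
    refine h1.trans ((Real.rpow_le_rpow (Nat.cast_nonneg _) hup (by linarith)).trans (le_of_eq ?_))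
    rw [← Real.rpow_mul hn0.le]
  have hpk : (8 : ℝ) ≤ (n : ℝ) ^ (2 - d) := by
    rw [Real.rpow_zero] at g3
    linarith
  clear g3
  have hsq : ∀ x : ℕ, (n : ℝ) ^ (2 - d) + 1 ≤ x → (n : ℝ) ^ (2 * (2 - d)) ≤ ((x ^ 2 - 2 : ℕ) : ℝ) := by
    intro x hx
    have e1 : (n : ℝ) ^ (2 * (2 - d)) = ((n : ℝ) ^ (2 - d)) ^ 2 := by
      rw [mul_comm, Real.rpow_mul hn0.le]
      norm_num
    have e2 : 2 ≤ x := by
      have : (2 : ℝ) ≤ x := by linarith
      exact_mod_cast this
    have e3 : 2 ≤ x ^ 2 := by nlinarith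
    rw [Nat.cast_sub e3, e1]
    push_cast
    have e7 : ∀ P : ℝ, 8 ≤ P → P + 1 ≤ x → P ^ 2 ≤ (x : ℝ) ^ 2 - 2 := by
      intro P hP hx'
      have e4 : (P + 1) ^ 2 ≤ (x : ℝ) ^ 2 := pow_le_pow_left₀ (by linarith) hx' 2
      linarith
    exact e7 _ hpk hx
  refine ⟨h3, hsq _ (by linarith), ?_⟩
  have h10 : (2 : ℝ) ≤ pk S (k * n) := by linarith
  exact_mod_cast h10

/-- the time in terms of powers -/
lemma time : ∀ᶠ n : ℕ in atTop, (n : ℝ) ^ (12 / 5 : ℝ) ≤ X n ∧ (X n : ℝ) ≤ (n : ℝ) ^ (5 / 2 : ℝ) := by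
  filter_upwards [pow_beat (12 / 5) (5 / 2) 2 (by norm_num) (by norm_num),
    eventually_ge_atTop 1] with n g2 g3
  have hn : (1 : ℝ) ≤ n := by exact_mod_cast g3
  have hn0 : (0 : ℝ) < n := by linarith
  have h1 : (X n : ℝ) = (n : ℝ) ^ 2 * Nat.sqrt n := by unfold X; push_cast; ring
  have h2 : (Nat.sqrt n : ℝ) ≤ √(n : ℝ) := by
    apply Real.le_sqrt_of_sq_le
    exact_mod_cast Nat.sqrt_le' n
  have h3 : √(n : ℝ) ≤ Nat.sqrt n + 1 := by
    rw [Real.sqrt_le_left (by positivity)]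
    have := Nat.lt_succ_sqrt' n
    have h6 : (n : ℝ) < ((Nat.sqrt n + 1 : ℕ) : ℝ) ^ 2 := by exact_mod_cast this
    push_cast at h6
    exact h6.le
  have e1 : (n : ℝ) ^ (5 / 2 : ℝ) = (n : ℝ) ^ 2 * √(n : ℝ) := by
    rw [Real.sqrt_eq_rpow, ← Real.rpow_natCast, ← Real.rpow_add hn0]
    norm_num
  have e2 : (n : ℝ) ^ 2 ≤ (n : ℝ) ^ (12 / 5 : ℝ) := by
    rw [← Real.rpow_natCast]
    exact Real.rpow_le_rpow_of_exponent_le hn (by norm_num)
  rw [h1]
  constructor
  · have h4 : (n : ℝ) ^ 2 * √(n : ℝ) ≤ (n : ℝ) ^ 2 * (Nat.sqrt n + 1) :=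
      mul_le_mul_of_nonneg_left h3 (by positivity)
    rw [e1] at g2
    nlinarith
  · rw [e1]
    exact mul_le_mul_of_nonneg_left h2 (by positivity)

/-- the typical `k` give members of the family -/
lemma typ_mem {S : Set ℕ} (hS : PNT S) : ∀ᶠ n : ℕ in atTop, ∀ s : Finset ℕ, (∀ t, t ∈ s ↔ t ≤ X n ∧ t ∈ S) →
    ∀ k : ℕ, k ≤ n → (n : ℝ) ^ (4 / 5 : ℝ) ≤ k →
      ((k, tup s n k) ∈ Phi n s ↔ 2 * k + 1 ∈ S) ∧
      tup s n k = {pk S (k * n) ^ 2 - 2} ∧ 2 ≤ pk S (k * n) := by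
  have hinf := infinite_of_pnt hS
  filter_upwards [typical hS (1 / 5) (by norm_num) le_rfl, time, eventually_ge_atTop 3,
    pow_beat (5 / 2) (18 / 5) 1 (by norm_num) (by norm_num)] with n g1 g2 g3 g4 s hs k hkn hk
  have hn : (3 : ℝ) ≤ n := by exact_mod_cast g3
  have hn1 : (1 : ℝ) ≤ n := by linarith
  have hn0 : (0 : ℝ) < n := by linarith
  norm_num at g1
  obtain ⟨a1, a2, a3⟩ := g1 k hk hkn
  have hXle : ∀ x : ℕ, (x : ℝ) ≤ (n : ℝ) ^ (12 / 5 : ℝ) → x ≤ X n := by
    intro x hx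
    have : (x : ℝ) ≤ X n := hx.trans g2.1
    exact_mod_cast this
  have ha := hXle _ a1
  have e1 := pk_trunc hinf s (X n) hs ha
  have htup : tup s n k = {pk S (k * n) ^ 2 - 2} := by
    unfold tup
    rw [e1]
  have hbig : X n < pk S (k * n) ^ 2 - 2 := by
    have : (X n : ℝ) < ((pk S (k * n) ^ 2 - 2 : ℕ) : ℝ) := by linarith [g2.2]
    exact_mod_cast this
  have hup : pk S (k * n) ^ 2 - 2 ≤ X n ^ 2 := by
    have := Nat.pow_le_pow_left ha 2
    omega
  have hk0 : 0 < k := by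
    have : (0 : ℝ) < k := lt_of_lt_of_le (Real.rpow_pos_of_pos hn0 _) hk
    exact_mod_cast this
  have hsmall : 2 * k + 1 ≤ X n := by
    apply hXle
    have h1 : ((2 * k + 1 : ℕ) : ℝ) ≤ (n : ℝ) ^ 2 := by
      have : 2 * k + 1 ≤ n ^ 2 := by nlinarith
      exact_mod_cast this
    refine h1.trans ?_
    rw [← Real.rpow_natCast]
    exact Real.rpow_le_rpow_of_exponent_le hn1 (by norm_num)
  refine ⟨?_, htup, a3⟩
  rw [mem_Phi]
  simp only [htup, Finset.mem_singleton, forall_eq]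
  rw [hs]
  constructor
  · rintro ⟨⟨-, -, ⟨-, h⟩, -⟩, -⟩
    exact h
  · intro h
    exact ⟨⟨hk0, hkn, ⟨hsmall, h⟩, trivial⟩, hbig, hup⟩

open Classical in
/-- the `k ≤ n` with `2k + 1` chosen -/
noncomputable def odd (S : Set ℕ) (n : ℕ) : Finset ℕ := (Finset.Ioc 0 n).filter (fun k => 2 * k + 1 ∈ S)

/-- the exceptional `k` -/
noncomputable def exc (n : ℕ) (e : ℝ) : Finset ℕ := Finset.Ioc 0 ⌊(n : ℝ) ^ e⌋₊

lemma exc_card (n : ℕ) (e : ℝ) : ((exc n e).card : ℝ) ≤ (n : ℝ) ^ e := by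
  unfold exc
  rw [Nat.card_Ioc, Nat.sub_zero]
  exact Nat.floor_le (Real.rpow_nonneg (Nat.cast_nonneg n) e)

lemma not_exc {n k : ℕ} {e : ℝ} (hk : 0 < k) (h : k ∉ exc n e) : (n : ℝ) ^ e ≤ k := by
  unfold exc at h
  rw [Finset.mem_Ioc, not_and, not_le] at h
  exact (Nat.lt_of_floor_lt (h hk)).le

lemma cop_one (J : Finset (ℕ × Finset ℕ)) : cop J Prod.snd 1 = J := by
  unfold cop
  exact Finset.filter_true_of_mem fun j _ t _ => Nat.coprime_one_right t

/-- the number of members of the family -/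
lemma Phi_card {S : Set ℕ} (hS : PNT S) : ∀ᶠ n : ℕ in atTop, ∀ s : Finset ℕ, (∀ t, t ∈ s ↔ t ≤ X n ∧ t ∈ S) →
    ((odd S n).card : ℝ) - (n : ℝ) ^ (4 / 5 : ℝ) ≤ (Phi n s).card ∧ ((Phi n s).card : ℝ) ≤ (odd S n).card := by
  classical
  filter_upwards [typ_mem hS] with n g s hs
  constructor
  · have h1 : ((odd S n \ exc n (4 / 5)).image (fun k => (k, tup s n k))) ⊆ Phi n s := by
      intro j hj
      rw [Finset.mem_image] at hj
      obtain ⟨k, hk, rfl⟩ := hj
      unfold odd at hk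
      rw [Finset.mem_sdiff, Finset.mem_filter, Finset.mem_Ioc] at hk
      exact (g s hs k hk.1.1.2 (not_exc hk.1.1.1 hk.2)).1.2 hk.1.2
    have h2 := Finset.card_le_card h1
    rw [Finset.card_image_of_injective _ (fun a b h => (Prod.mk.inj h).1)] at h2
    have h3 : (odd S n).card ≤ (odd S n \ exc n (4 / 5)).card + (exc n (4 / 5)).card :=
      Finset.card_le_card_sdiff_add_card
    have h4 := exc_card n (4 / 5)
    have h5 : ((odd S n).card : ℝ) ≤ (Phi n s).card + (exc n (4 / 5)).card := by exact_mod_cast h3.trans (by omega)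
    linarith
  · have h1 : (Phi n s).card ≤ (odd S n).card := by
      refine Finset.card_le_card_of_injOn Prod.fst ?_ ?_
      · intro j hj
        have := (mem_Phi.1 hj).1
        unfold odd
        rw [Finset.coe_filter, Set.mem_ofPred_eq, Finset.mem_Ioc]
        exact ⟨⟨this.1, this.2.1⟩, ((hs _).1 this.2.2.1).2⟩
      · intro j hj j' hj' h
        have h1 := (mem_Phi.1 hj).1.2.2.2
        have h2 := (mem_Phi.1 hj').1.2.2.2
        refine Prod.ext h ?_
        rw [h1, h2, h]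
    exact_mod_cast h1

/-- the exceptional members -/
lemma Phi_far {S : Set ℕ} (hS : PNT S) (δ : ℝ) (hδ : 0 < δ) : ∃ d : ℝ, 0 < d ∧ ∀ᶠ n : ℕ in atTop, ∀ s : Finset ℕ,
    (∀ t, t ∈ s ↔ t ≤ X n ∧ t ∈ S) →
    ((far (Phi n s) Prod.snd (4 * Real.log n) δ).card : ℝ) ≤ (n : ℝ) ^ (1 - d) := by
  classical
  set d : ℝ := min δ (1 / 5) with hd
  have hd0 : 0 < d := by rw [hd]; positivity
  have hd1 : d ≤ 1 / 5 := min_le_right _ _
  refine ⟨d, hd0, ?_⟩
  filter_upwards [typ_mem hS, typical hS d hd0 hd1, eventually_gt_atTop 1] with n g g1 g2 s hs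
  have hn : (1 : ℝ) < n := by exact_mod_cast g2
  have hn0 : (0 : ℝ) < n := by linarith
  have hL : 0 < Real.log n := Real.log_pos hn
  have h1 : (far (Phi n s) Prod.snd (4 * Real.log n) δ).card ≤ (exc n (1 - d)).card := by
    refine Finset.card_le_card_of_injOn Prod.fst ?_ ?_
    · intro j hj
      unfold far at hj
      rw [Finset.mem_coe, Finset.mem_filter] at hj
      obtain ⟨hj1, t, ht, hfar⟩ := hj
      have hm := (mem_Phi.1 hj1).1
      rw [Finset.mem_coe]
      by_contra hcon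
      have a1 := not_exc hm.1 hcon
      have hle : (n : ℝ) ^ (4 / 5 : ℝ) ≤ (n : ℝ) ^ (1 - d) := Real.rpow_le_rpow_of_exponent_le hn.le (by linarith)
      obtain ⟨-, htup, -⟩ := g s hs j.1 hm.2.1 (hle.trans a1)
      obtain ⟨b1, b2, b3⟩ := g1 j.1 a1 hm.2.1
      rw [hm.2.2.2, htup, Finset.mem_singleton] at ht
      have hup : ∀ x : ℕ, (x : ℝ) ≤ (n : ℝ) ^ (2 * (1 + d)) → ((x ^ 2 - 2 : ℕ) : ℝ) ≤ (n : ℝ) ^ (2 * (2 * (1 + d))) := by
        intro x hx
        have e1 : (n : ℝ) ^ (2 * (2 * (1 + d))) = ((n : ℝ) ^ (2 * (1 + d))) ^ 2 := by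
          rw [mul_comm 2 (2 * (1 + d)), Real.rpow_mul hn0.le]
          norm_num
        rw [e1]
        calc ((x ^ 2 - 2 : ℕ) : ℝ) ≤ ((x ^ 2 : ℕ) : ℝ) := by exact_mod_cast Nat.sub_le _ _
          _ = (x : ℝ) ^ 2 := by push_cast; ring
          _ ≤ _ := pow_le_pow_left₀ (Nat.cast_nonneg _) hx 2
      have hkey : (n : ℝ) ^ (2 * (2 - d)) ≤ t ∧ (t : ℝ) ≤ (n : ℝ) ^ (2 * (2 * (1 + d))) := by
        subst ht
        exact ⟨b2, hup _ b1⟩
      have hpos : 0 < (n : ℝ) ^ (2 * (2 - d)) := Real.rpow_pos_of_pos hn0 _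
      have k1 : 2 * (2 - d) * Real.log n ≤ Real.log t := by
        rw [← Real.log_rpow hn0]
        exact Real.log_le_log hpos hkey.1
      have k2 : Real.log t ≤ 2 * (2 * (1 + d)) * Real.log n := by
        rw [← Real.log_rpow hn0]
        exact Real.log_le_log (lt_of_lt_of_le hpos hkey.1) hkey.2
      have hdL : 0 < d * Real.log n := by positivity
      have k3 : |Real.log t - 4 * Real.log n| ≤ d * (4 * Real.log n) := by
        rw [abs_le]
        constructor <;> nlinarith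
      have k4 : d * (4 * Real.log n) ≤ δ * (4 * Real.log n) :=
        mul_le_mul_of_nonneg_right (min_le_left _ _) (by positivity)
      linarith
    · intro j hj j' hj' h
      unfold far at hj hj'
      rw [Finset.mem_coe, Finset.mem_filter] at hj hj'
      have h1 := (mem_Phi.1 hj.1).1.2.2.2
      have h2 := (mem_Phi.1 hj'.1).1.2.2.2
      refine Prod.ext h ?_
      rw [h1, h2, h]
  have h2 := exc_card n (1 - d)
  have h3 : ((far (Phi n s) Prod.snd (4 * Real.log n) δ).card : ℝ) ≤ (exc n (1 - d)).card := by exact_mod_cast h1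
  linarith

/-- the good `k` and the chosen members of the family -/
lemma good_cho {Ω : Type} {A : ℕ → Set Ω} {ω : Ω} (hS : PNT {k | ω ∈ A k}) : ∀ᶠ n : ℕ in atTop,
    |((good {k | ω ∈ A k} n).ncard : ℝ) - (cho A (Phi n (ch A (X n) ω)) Prod.snd ω).card| ≤
      (n : ℝ) ^ (4 / 5 : ℝ) := by
  classical
  set S : Set ℕ := {k | ω ∈ A k} with hSdef
  filter_upwards [typ_mem hS] with n g
  set s := ch A (X n) ω with hs
  have hsm : ∀ t, t ∈ s ↔ t ≤ X n ∧ t ∈ S := fun t => mem_ch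
  have hcard := exc_card n (4 / 5)
  set E := exc n (4 / 5) with hE
  have key : ∀ k, 0 < k → k ≤ n → k ∉ E → (k ∈ good S n ↔ (k, tup s n k) ∈ cho A (Phi n s) Prod.snd ω) := by
    intro k hk0 hk hkE
    obtain ⟨h1, h2, h3⟩ := g s hsm k hk (not_exc hk0 hkE)
    unfold good cho
    rw [Finset.mem_filter, Set.mem_ofPred_eq, h1, p_eq, sqm_iff h3]
    simp only [h2, Finset.mem_singleton, forall_eq]
    constructor
    · rintro ⟨-, -, b1, b2⟩
      exact ⟨b1, b2⟩
    · rintro ⟨b1, b2⟩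
      exact ⟨hk0, hk, b1, b2⟩
  have hfst : (cho A (Phi n s) Prod.snd ω).card = ((cho A (Phi n s) Prod.snd ω).image Prod.fst).card := by
    rw [Finset.card_image_of_injOn]
    intro j hj j' hj' h
    unfold cho at hj hj'
    rw [Finset.mem_coe, Finset.mem_filter] at hj hj'
    have h1 := (mem_Phi.1 hj.1).1.2.2.2
    have h2 := (mem_Phi.1 hj'.1).1.2.2.2
    refine Prod.ext h ?_
    rw [h1, h2, h]
  have hmem : ∀ j ∈ cho A (Phi n s) Prod.snd ω, 0 < j.1 ∧ j.1 ≤ n ∧ j = (j.1, tup s n j.1) := by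
    intro j hj
    unfold cho at hj
    rw [Finset.mem_filter] at hj
    have h1 := (mem_Phi.1 hj.1).1
    exact ⟨h1.1, h1.2.1, Prod.ext rfl h1.2.2.2⟩
  have hfin : (good S n).Finite := (Set.finite_le_nat n).subset fun k hk => hk.2.1
  have h1 : (good S n).ncard ≤ (cho A (Phi n s) Prod.snd ω).card + E.card := by
    rw [hfst]
    have hsub : good S n ⊆ (((cho A (Phi n s) Prod.snd ω).image Prod.fst ∪ E : Finset ℕ) : Set ℕ) := by
      intro k hk
      rw [Finset.mem_coe, Finset.mem_union]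
      by_cases hkE : k ∈ E
      · right; exact hkE
      · left
        rw [Finset.mem_image]
        exact ⟨_, (key k hk.1 hk.2.1 hkE).1 hk, rfl⟩
    have := Set.ncard_le_ncard hsub (Finset.finite_toSet _)
    rw [Set.ncard_coe_finset] at this
    exact this.trans (Finset.card_union_le _ _)
  have h2 : (cho A (Phi n s) Prod.snd ω).card ≤ (good S n).ncard + E.card := by
    rw [hfst]
    have hsub : (((cho A (Phi n s) Prod.snd ω).image Prod.fst : Finset ℕ) : Set ℕ) ⊆ good S n ∪ (E : Set ℕ) := by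
      intro k hk
      rw [Finset.mem_coe, Finset.mem_image] at hk
      obtain ⟨j, hj, rfl⟩ := hk
      by_cases hkE : j.1 ∈ E
      · right; exact Finset.mem_coe.2 hkE
      · left
        obtain ⟨b0, b1, b2⟩ := hmem j hj
        refine (key j.1 b0 b1 hkE).2 ?_
        rw [← b2]
        exact hj
    have h3 := Set.ncard_le_ncard hsub (hfin.union (Finset.finite_toSet E))
    rw [Set.ncard_coe_finset] at h3
    refine h3.trans ((Set.ncard_union_le _ _).trans ?_)
    rw [Set.ncard_coe_finset]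
  have h3 : ((good S n).ncard : ℝ) ≤ (cho A (Phi n s) Prod.snd ω).card + E.card := by exact_mod_cast h1
  have h4 : ((cho A (Phi n s) Prod.snd ω).card : ℝ) ≤ (good S n).ncard + E.card := by exact_mod_cast h2
  rw [abs_le]
  constructor <;> linarith

section models

variable {Ω : Type} {m0 : MeasurableSpace Ω} {μ : Measure Ω} [IsProbabilityMeasure μ]
  {ℱ : Filtration ℕ m0} {A : ℕ → Set Ω}

/-- the number of `k ≤ n` with `2k + 1` chosen is asymptotic to `n / log n` -/
lemma odd_ae (hA : ∀ n, MeasurableSet[ℱ n] (A n))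
    (hd : ∀ᵐ ω ∂μ, Tendsto (fun n : ℕ => Pool.Agent.R528.RM.dens μ ℱ A n ω * Real.log n) atTop (𝓝 1)) :
    ∀ᵐ ω ∂μ, ∀ ε : ℝ, 0 < ε → ∀ᶠ n : ℕ in atTop,
      |((odd {k | ω ∈ A k} n).card : ℝ) - n / Real.log n| ≤ ε * (n / Real.log n) := by
  classical
  have hN : ∀ n, (cop (Finset.Ioc 0 n) (fun m : ℕ => ({2 * m + 1} : Finset ℕ)) 1).card = n := by
    intro n
    unfold cop
    rw [Finset.filter_true_of_mem (fun j _ t _ => Nat.coprime_one_right t), Nat.card_Ioc, Nat.sub_zero]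
  have h1 := law (μ := μ) hA 1 one_pos (fun n hn => absurd (Nat.coprime_one_right n) hn) (seq_sieved hd) 1
    (fun n => Finset.Ioc 0 n) (fun _ m => {2 * m + 1}) (fun _ => 1) (fun n j _ => Finset.card_singleton _)
    (fun n j hj => by
      rw [Finset.mem_singleton]
      omega)
    (fun n t => by
      refine Finset.card_le_one.2 fun a ha b hb => ?_
      rw [Finset.mem_filter, Finset.mem_singleton] at ha hb
      omega)
    (fun _ => le_rfl) atTop le_rfl 1 1 1 one_pos one_pos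
    (by
      filter_upwards with n
      rw [hN, one_mul, Real.rpow_one])
    ⟨1 / 2, by norm_num, by
      filter_upwards [eventually_ge_atTop 1] with n hn
      have : (1 : ℝ) ≤ n := by exact_mod_cast hn
      rw [Nat.cast_one]
      exact Real.one_le_rpow this (by norm_num)⟩
    (by
      intro δ hδ
      set d : ℝ := min δ (1 / 2) with hdd
      have hd0 : 0 < d := by rw [hdd]; positivity
      have hd1 : d ≤ 1 / 2 := min_le_right _ _
      refine ⟨d, hd0, ?_⟩
      filter_upwards [near_log 3 d hd0, eventually_gt_atTop 1] with n g1 g2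
      have hn : (1 : ℝ) < n := by exact_mod_cast g2
      have hL : 0 < Real.log n := Real.log_pos hn
      have h2 : far (Finset.Ioc 0 n) (fun m : ℕ => ({2 * m + 1} : Finset ℕ)) (1 * Real.log n) δ ⊆
          Finset.Ioc 0 ⌊(n : ℝ) ^ (1 - d)⌋₊ := by
        intro m hm
        unfold far at hm
        simp only [Finset.mem_filter, Finset.mem_Ioc, Finset.mem_singleton, exists_eq_left, one_mul] at hm
        obtain ⟨⟨m1, m2⟩, m3⟩ := hm
        rw [Finset.mem_Ioc, Nat.le_floor_iff (by positivity)]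
        refine ⟨m1, ?_⟩
        by_contra hcon
        push Not at hcon
        have m5 : (m : ℝ) ≤ ((2 * m + 1 : ℕ) : ℝ) := by
          have : m ≤ 2 * m + 1 := by omega
          exact_mod_cast this
        have m6 : ((2 * m + 1 : ℕ) : ℝ) ≤ 3 * n := by
          have : 2 * m + 1 ≤ 3 * n := by omega
          exact_mod_cast this
        have m4 := g1 (2 * m + 1) (hcon.le.trans m5) m6
        have : d * Real.log n ≤ δ * Real.log n := mul_le_mul_of_nonneg_right (min_le_left _ _) hL.le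
        linarith
      have h3 := Finset.card_le_card h2
      rw [Nat.card_Ioc, Nat.sub_zero] at h3
      calc ((far (Finset.Ioc 0 n) (fun m : ℕ => ({2 * m + 1} : Finset ℕ)) (1 * Real.log n) δ).card : ℝ)
          ≤ (⌊(n : ℝ) ^ (1 - d)⌋₊ : ℝ) := by exact_mod_cast h3
        _ ≤ (n : ℝ) ^ (1 - d) := Nat.floor_le (by positivity))
  filter_upwards [h1] with ω hω ε hε
  filter_upwards [hω ε hε] with n g
  rw [hN] at g
  have e1 : (odd {k | ω ∈ A k} n).card = (cho A (Finset.Ioc 0 n) (fun m : ℕ => ({2 * m + 1} : Finset ℕ)) ω).card := by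
    unfold cho odd
    congr 1
    ext m
    simp only [Finset.mem_filter, Finset.mem_Ioc, Finset.mem_singleton, forall_eq, Set.mem_ofPred_eq]
  rw [e1]
  have e2 : (n : ℝ) * ((((1 : ℕ) : ℝ) / Nat.totient 1) / (1 * Real.log n)) ^ 1 = n / Real.log n := by
    rw [Nat.totient_one, Nat.cast_one, div_one, one_mul, pow_one, mul_one_div]
  rw [e2] at g
  exact g

end models

/-- the family has at least `n / (4 log n)` members -/
lemma Phi_many {S : Set ℕ} (hS : PNT S)
    (ho : ∀ ε : ℝ, 0 < ε → ∀ᶠ n : ℕ in atTop, |((odd S n).card : ℝ) - n / Real.log n| ≤ ε * (n / Real.log n)) :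
    ∀ᶠ n : ℕ in atTop, ∀ s : Finset ℕ, (∀ t, t ∈ s ↔ t ≤ X n ∧ t ∈ S) →
      (n : ℝ) / (4 * Real.log n) ≤ (Phi n s).card := by
  filter_upwards [Phi_card hS, ho (1 / 2) (by norm_num), eventually_gt_atTop 1,
    (err_tendsto 1 (4 / 5) (by norm_num) 1).eventually (gt_mem_nhds (show (0:ℝ) < 1 / 4 by norm_num))]
    with n g1 g2 g3 g4 s hs
  have hn : (1 : ℝ) < n := by exact_mod_cast g3
  have hn0 : (0 : ℝ) < n := by linarith
  have hL : 0 < Real.log n := Real.log_pos hn
  have k1 := (g1 s hs).1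
  have k2 := (abs_le.1 g2).1
  have hp' : 0 < (n : ℝ) ^ (4 / 5 : ℝ) := Real.rpow_pos_of_pos hn0 _
  rw [pow_one, div_lt_iff₀ hn0] at g4
  have k3 : (n : ℝ) ^ (4 / 5 : ℝ) ≤ 1 / 4 * (n / Real.log n) := by
    rw [mul_div_assoc', le_div_iff₀ hL]
    nlinarith
  have k4 : (n : ℝ) / (4 * Real.log n) = 1 / 4 * (n / Real.log n) := by
    field_simp
  rw [k4]
  linarith

end Pool.Agent.Results.MP_c971ef_nt.SequentialModels

open Pool.Agent.Results.MP_c971ef_nt.SequentialModels Pool.Agent.N909.TF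

/-- Let `A n` be the event that `n` belongs to a random set adapted to a filtration `ℱ`, and let the
conditional probability of `A (n + 1)` given `ℱ n`, times `log n`, tend to `1` almost surely.  Let
`P_k` be the chosen integer number `k`.  (1) Almost surely the number of `1 ≤ k ≤ n` such that `2k + 1`
and `P_{kn}² - 2` are both chosen is asymptotic to `n / (4 (log n)²)`.  (2) Almost surely every large
`n` has such a `k`. -/
theorem Pool.Agent.Results.MP_c971ef_nt.SequentialModels.result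
    {Ω : Type} [mΩ : MeasurableSpace Ω] (μ : Measure Ω) [IsProbabilityMeasure μ]
    (ℱ : Filtration ℕ mΩ) (A : ℕ → Set Ω) (hA : ∀ n, MeasurableSet[ℱ n] (A n))
    (hd : ∀ᵐ ω ∂μ, Tendsto (fun n : ℕ =>
      (μ[(A (n + 1)).indicator (fun _ => (1 : ℝ)) | ℱ n]) ω * Real.log n) atTop (𝓝 1)) :
    (∀ᵐ ω ∂μ, Tendsto (fun n : ℕ => ((good {k : ℕ | ω ∈ A k} n).ncard : ℝ) / (n / Real.log n ^ 2))
      atTop (𝓝 (1 / 4))) ∧
    (∀ᵐ ω ∂μ, ∀ᶠ n : ℕ in atTop, ∃ k : ℕ, 1 ≤ k ∧ k ≤ n ∧ 2 * k + 1 ∈ {k : ℕ | ω ∈ A k} ∧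
      sqm {k : ℕ | ω ∈ A k} (p {k : ℕ | ω ∈ A k} (k * n))) := by
  classical
  have hpnt := pnt_ae (μ := μ) hA hd
  have hodd := odd_ae (μ := μ) hA hd
  have hmem : ∀ ω : Ω, ∀ n t, t ∈ ch A (X n) ω ↔ t ≤ X n ∧ t ∈ {k | ω ∈ A k} := fun ω n t => mem_ch
  have h1 := sieved_rand (μ := μ) hA 1 one_pos (fun n hn => absurd (Nat.coprime_one_right n) hn) (seq_sieved hd) 1
    X (fun n => X n ^ 2) Phi (fun _ => 1) (fun n s j hj => Phi_one hj)
    (fun n s j hj => (mem_Phi.1 hj).2.1) (fun n s j hj => (mem_Phi.1 hj).2.2) Phi_mult atTop le_rfl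
    (fun n => 4 * Real.log n)
    ((Real.tendsto_log_atTop.comp tendsto_natCast_atTop_atTop).const_mul_atTop (by norm_num))
    (by
      filter_upwards [hpnt, hodd] with ω hω hoω δ hδ
      obtain ⟨d, hd0, h2⟩ := Phi_far hω δ hδ
      have h3 := (err_tendsto 1 (1 - d) (by linarith) 2).eventually (gt_mem_nhds (show (0:ℝ) < δ / 16 by positivity))
      filter_upwards [h2, Phi_many hω hoω, h3, eventually_gt_atTop 1] with n g1 g2 g3 g5
      have hn : (1 : ℝ) < n := by exact_mod_cast g5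
      have hn0 : (0 : ℝ) < n := by linarith
      have hL : 0 < Real.log n := Real.log_pos hn
      rw [cop_one]
      have k1 := g1 _ (hmem ω n)
      have k3 := g2 _ (hmem ω n)
      rw [div_lt_iff₀ hn0] at g3
      have k4 : ((n : ℝ) ^ (1 - d)) * (4 * Real.log n) ≤ δ * ((n : ℝ) / (4 * Real.log n)) := by
        rw [mul_div_assoc', le_div_iff₀ (by positivity)]
        nlinarith
      rw [pow_one]
      calc ((far (Phi n (ch A (X n) ω)) Prod.snd (4 * Real.log n) δ).card : ℝ) * (4 * Real.log n)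
          ≤ (n : ℝ) ^ (1 - d) * (4 * Real.log n) := mul_le_mul_of_nonneg_right k1 (by positivity)
        _ ≤ δ * ((n : ℝ) / (4 * Real.log n)) := k4
        _ ≤ δ * ((Phi n (ch A (X n) ω)).card : ℝ) := mul_le_mul_of_nonneg_left k3 hδ.le)
    (by
      filter_upwards [hpnt, hodd] with ω hω hoω
      refine tendsto_atTop_mono' atTop ?_ (pow_log (1 / 16) 1 (by norm_num) one_pos 3)
      filter_upwards [Phi_many hω hoω, eventually_gt_atTop 1] with n g2 g5
      have hn : (1 : ℝ) < n := by exact_mod_cast g5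
      have hn0 : (0 : ℝ) < n := by linarith
      have hL : 0 < Real.log n := Real.log_pos hn
      rw [cop_one]
      have k3 := g2 _ (hmem ω n)
      rw [Real.rpow_one, div_le_div_iff₀ (by positivity) (by positivity)]
      have e1 : 1 / 16 * (n : ℝ) * (((1 : ℕ) : ℝ) * Real.log n * (4 * Real.log n) ^ 1) =
          (n : ℝ) / (4 * Real.log n) * Real.log n ^ 3 := by
        push_cast
        field_simp
        ring
      rw [e1]
      exact mul_le_mul_of_nonneg_right k3 (by positivity))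
  have h2 : ∀ᵐ ω ∂μ, Tendsto (fun n : ℕ => ((good {k : ℕ | ω ∈ A k} n).ncard : ℝ) / (n / Real.log n ^ 2))
      atTop (𝓝 (1 / 4)) := by
    filter_upwards [h1, hpnt, hodd] with ω hω hpω hoω
    have h3 : Tendsto (fun n : ℕ => ((cho A (Phi n (ch A (X n) ω)) Prod.snd ω).card : ℝ) / (n / Real.log n ^ 2))
        atTop (𝓝 (1 / 4)) := by
      refine ratio_tendsto hω ?_
      -- the number of members is asymptotic to n / log n
      have h4' : Tendsto (fun n : ℕ => ((odd {k : ℕ | ω ∈ A k} n).card : ℝ) / (n / Real.log n)) atTop (𝓝 1) := by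
        refine ratio_tendsto hoω ?_
        refine tendsto_const_nhds.congr' ?_
        filter_upwards [eventually_gt_atTop 1] with n g1
        have hn : (1 : ℝ) < n := by exact_mod_cast g1
        have hL : 0 < Real.log n := Real.log_pos hn
        rw [div_self]
        positivity
      have h4 : Tendsto (fun n : ℕ => ((Phi n (ch A (X n) ω)).card : ℝ) / (n / Real.log n)) atTop (𝓝 1) := by
        have h5 := h4'.sub (err_tendsto 1 (4 / 5) (by norm_num) 1)
        rw [sub_zero] at h5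
        refine tendsto_of_tendsto_of_tendsto_of_le_of_le' h5 h4' ?_ ?_
        · filter_upwards [Phi_card hpω, eventually_gt_atTop 1] with n g1 g2
          have hn : (1 : ℝ) < n := by exact_mod_cast g2
          have hn0 : (0 : ℝ) < n := by linarith
          have hL : 0 < Real.log n := Real.log_pos hn
          have k := (g1 _ (hmem ω n)).1
          have hp' : 0 < (n : ℝ) ^ (4 / 5 : ℝ) := Real.rpow_pos_of_pos hn0 _
          have e1 : (1 * (n : ℝ) ^ (4 / 5 : ℝ) + 1) * Real.log n ^ 1 / n =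
              (1 * (n : ℝ) ^ (4 / 5 : ℝ) + 1) / (n / Real.log n) := by
            field_simp
          rw [e1, ← sub_div]
          gcongr
          linarith
        · filter_upwards [Phi_card hpω, eventually_gt_atTop 1] with n g1 g2
          have hn : (1 : ℝ) < n := by exact_mod_cast g2
          have hL : 0 < Real.log n := Real.log_pos hn
          have k := (g1 _ (hmem ω n)).2
          gcongr
      have h5 := h4.const_mul (1 / 4)
      rw [mul_one] at h5
      refine h5.congr' ?_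
      filter_upwards [eventually_gt_atTop 1] with n g1
      have hn : (1 : ℝ) < n := by exact_mod_cast g1
      have hL : 0 < Real.log n := Real.log_pos hn
      rw [cop_one, Nat.totient_one, Nat.cast_one, div_one, pow_one]
      field_simp
    have h6 : Tendsto (fun n : ℕ => ((good {k : ℕ | ω ∈ A k} n).ncard : ℝ) / (n / Real.log n ^ 2) -
        ((cho A (Phi n (ch A (X n) ω)) Prod.snd ω).card : ℝ) / (n / Real.log n ^ 2)) atTop (𝓝 0) := by
      refine squeeze_zero_norm' ?_ (err_tendsto 1 (4 / 5) (by norm_num) 2)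
      filter_upwards [good_cho hpω, eventually_gt_atTop 1] with n g1 g2
      have hn : (1 : ℝ) < n := by exact_mod_cast g2
      have hn0 : (0 : ℝ) < n := by linarith
      have hL : 0 < Real.log n := Real.log_pos hn
      have hp' : 0 < (n : ℝ) ^ (4 / 5 : ℝ) := Real.rpow_pos_of_pos hn0 _
      rw [Real.norm_eq_abs, ← sub_div, abs_div, abs_of_pos (show 0 < (n : ℝ) / Real.log n ^ 2 by positivity),
        div_div_eq_mul_div]
      gcongr
      linarith
    have h7 := h6.add h3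
    rw [zero_add] at h7
    exact h7.congr fun n => by ring
  refine ⟨h2, ?_⟩
  filter_upwards [h2] with ω hω
  filter_upwards [hω.eventually (lt_mem_nhds (show (0:ℝ) < 1 / 4 by norm_num))] with n g
  have hpos : (good {k : ℕ | ω ∈ A k} n).ncard ≠ 0 := by
    intro h
    rw [h, Nat.cast_zero, zero_div] at g
    exact lt_irrefl _ g
  obtain ⟨k, k1, k2, k3, k4⟩ := Set.nonempty_of_ncard_ne_zero hpos
  exact ⟨k, k1, k2, k3, k4⟩
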