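import Pool.Agent.R498.MP.StrC
import Pool.Agent.R498.MP.LinC

set_option autoImplicit false

/-!
# Strings of primes `p_{k n}` with almost prime `p_{k n} ^ 2 - 2`, `k` in a residue class
-/

namespace Pool.Agent.Results.MP_c971ef_nt.StringsOfMultiples

open Filter

/-- the `m`-th prime, `pr 1 = 2` -/
noncomputable def pr (m : ℕ) : ℕ := Nat.nth Nat.Prime (m - 1)

/-- `p ^ 2 - 2` has at most `r` prime factors, counted with multiplicity, all of them at least `w`. -/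
def AlmostPrimeValue (r : ℕ) (w : ℝ) (p : ℕ) : Prop :=
  (p ^ 2 - 2).primeFactorsList.length ≤ r ∧ ∀ q : ℕ, q.Prime → q ∣ p ^ 2 - 2 → w ≤ q

theorem cast_val (p : ℕ) (hp : 2 ≤ p) : (p : ℤ) ^ 2 - 2 = ((p ^ 2 - 2 : ℕ) : ℤ) := by
  have h : 2 ≤ p ^ 2 := by nlinarith
  push_cast [Nat.cast_sub h]
  ring

theorem nonzero (n : ℤ) : n ^ 2 - 2 ≠ 0 := by
  intro h
  have h1 : n.natAbs * n.natAbs = 2 := by
    zify
    rw [← sq, sq_abs]
    linarith
  have h2 : n.natAbs ≤ 1 := by nlinarith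
  interval_cases n.natAbs <;> omega

theorem eval_f (n : ℤ) : (Polynomial.X ^ 2 - 2 : Polynomial ℤ).eval n = n ^ 2 - 2 := by
  simp

theorem adm (p : ℕ) (hp : p.Prime) :
    ∃ n : ℤ, ¬ (p : ℤ) ∣ n * (Polynomial.X ^ 2 - 2 : Polynomial ℤ).eval n := by
  refine ⟨1, fun h => ?_⟩
  rw [eval_f] at h
  have h3 : (p : ℤ) ∣ 1 := by
    have h4 := h.mul_left (-1)
    norm_num at h4
    exact_mod_cast h4
  exact hp.one_lt.ne' (Nat.dvd_one.1 (by exact_mod_cast h3))

/-- **Primes `p_{k n}` with consecutive `k` in a residue class and almost prime `p_{k n} ^ 2 - 2`.** Let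
`n, v ≥ 1`, `m ≥ 0`, let `q` be squarefree and let `c (c ^ 2 - 2)` be coprime to `q` (for instance `q = 1`).
There are `C`, `r` and `δ > 0` such that for every `b ≥ 1` and all large `N` there is `t` such that for the
`m + 1` consecutive terms `k = v t + b, v (t + 1) + b, ..., v (t + m) + b` of the residue class of `b`
modulo `v` the primes `p_{k n}` lie in `(N, 2 N]`, in an interval of length at most `C`, are all `≡ c`
modulo `q`, and the numbers `p_{k n} ^ 2 - 2` have at most `r` prime factors, all of them at least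
`N ^ δ`. For `v = 1` the `k` are consecutive integers; for `v = b = ∏ p`, `p ≤ y`, the numbers `2 k + 1`
have no prime factor up to `y`. -/
theorem result (n v m : ℕ) (hn : 1 ≤ n) (hv : 1 ≤ v) (q c : ℕ) (hq : Squarefree q)
    (hc : IsCoprime ((c : ℤ) * ((c : ℤ) ^ 2 - 2)) (q : ℤ)) :
    ∃ (C r : ℕ) (δ : ℝ), 0 < δ ∧ ∀ b : ℕ, 1 ≤ b → ∀ᶠ N : ℕ in atTop, ∃ t : ℕ,
      N < pr ((v * t + b) * n) ∧ pr ((v * (t + m) + b) * n) ≤ 2 * N ∧
      pr ((v * (t + m) + b) * n) ≤ pr ((v * t + b) * n) + C ∧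
      ∀ j ≤ m, pr ((v * (t + j) + b) * n) ≡ c [MOD q] ∧
        AlmostPrimeValue r ((N : ℝ) ^ δ) (pr ((v * (t + j) + b) * n)) := by
  obtain ⟨C, r, δ, hδ, hmain⟩ := Pool.Agent.R498.MP.index_runsC
    (Polynomial.X ^ 2 - 2) (fun n _ => by rw [eval_f]; exact nonzero n) adm q c hq
    (fun p hp hpq => by
      rw [eval_f]
      exact Pool.Agent.R498.MP.cop_to _ q hc p hp hpq) (v * n) m (Nat.mul_pos hv hn)
  refine ⟨C, r, δ, hδ, fun b hb => ?_⟩
  have hidx : ∀ t : ℕ, pr ((v * t + b) * n) = Nat.nth Nat.Prime (v * n * t + (b * n - 1)) := by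
    intro t
    unfold pr
    congr 1
    have h1 : (v * t + b) * n = v * n * t + b * n := by ring
    have h2 : 1 ≤ b * n := Nat.mul_pos hb hn
    omega
  filter_upwards [hmain (b * n - 1)] with N hN
  obtain ⟨t, h1, h2, h3, h4⟩ := hN
  refine ⟨t, ?_, ?_, ?_, fun j hj => ?_⟩
  · rw [hidx]; exact h1
  · rw [hidx]; exact h2
  · rw [hidx, hidx]; exact h3
  · rw [hidx]
    refine ⟨(h4 j hj).1, ?_⟩
    obtain ⟨-, g5, g6⟩ := (h4 j hj).2
    rw [eval_f, cast_val _ (Nat.prime_nth_prime _).two_le] at g5 g6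
    rw [Int.natAbs_natCast] at g5
    exact ⟨g5, fun q hq hqd => g6 q hq (by exact_mod_cast hqd)⟩

end Pool.Agent.Results.MP_c971ef_nt.StringsOfMultiples
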